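import Pool.Agent.Y765.Stlc.Ext

set_option autoImplicit false

open Set
open scoped ContDiff

namespace Pool.Agent.Results.MP_b41015_an.AllDimensions

open Pool.Agent.Helper562.STLC Pool.Agent.Y765.Stlc

lemma contDiff_fld_omega (e : ℝ) (m : ℕ) (i : Fin 8) : ContDiff ℝ ω (fld e m i) := by
  rw [contDiff_euclidean]
  intro j
  have hc : ∀ l : Fin 5, ContDiff ℝ ω (fun q : E 5 => q l) := fun l =>
    (EuclideanSpace.proj l : E 5 →L[ℝ] ℝ).contDiff
  fin_cases j
  · simpa [fld] using contDiff_const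
  · simpa [fld] using contDiff_const
  · simpa [fld] using contDiff_const
  · simpa [fld] using hc 1
  · have h : ContDiff ℝ ω (fun q : E 5 => (q 0 * q 1 + q 3 / 2) ^ 2 - q 2 * q 3 ^ 2 +
        e * q 2 ^ (2 * m)) :=
      (((((hc 0).mul (hc 1)).add ((hc 3).div_const 2)).pow 2).sub ((hc 2).mul ((hc 3).pow 2))).add
        (contDiff_const.mul ((hc 2).pow _))
    simpa [fld] using h

lemma analytic_fld (e : ℝ) (m : ℕ) (i : Fin 8) : AnalyticOnNhd ℝ (fld e m i) univ :=
  contDiff_omega_iff_analyticOnNhd.1 (contDiff_fld_omega e m i)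

lemma bad_fld (m : ℕ) : Bad (fld 1 m) := by
  obtain ⟨T₀, hT₀, hT₀', hthr⟩ := exists_threshold m
  refine ⟨T₀, hT₀, fun r hr => ?_⟩
  have hne : (-(r / 2)) ≠ 0 := by linarith
  refine ⟨EuclideanSpace.single 4 (-(r / 2)), ?_, ?_, ?_⟩
  · intro h0
    have := congrArg (fun q : E 5 => q 4) h0
    simp at this
    linarith
  · rw [show ‖(EuclideanSpace.single 4 (-(r / 2)) : E 5)‖ = ‖-(r / 2)‖ from
      PiLp.norm_single 2 _ _ _, norm_neg, Real.norm_eq_abs, abs_of_pos (by linarith)]
    linarith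
  · intro hw
    have h2 := reachable_nonneg hT₀' hthr hw (by simp)
    simp at h2
    linarith

lemma good_five : Good 5 8 :=
  ⟨f0, fun i => ⟨isPolynomial_fld 0 0 i, analytic_fld 0 0 i⟩, stlc_f0, fun N =>
    ⟨fld 1 (N + 1), fun i => ⟨isPolynomial_fld 1 (N + 1) i, analytic_fld 1 (N + 1) i⟩,
      agree N, bad_fld (N + 1)⟩⟩

lemma good_all (n : ℕ) (hn : 5 ≤ n) : Good n (2 * n - 2) := by
  induction n, hn using Nat.le_induction with
  | base => exact good_five
  | succ n hn ih =>
    have h := good_succ ih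
    have e : 2 * n - 2 + 2 = 2 * (n + 1) - 2 := by omega
    rw [e] at h
    exact h

/-- In every dimension `n ≥ 5` and for every number `k ≥ 2 n - 2` of fields there is a family of
`k` polynomial vector fields on `ℝ ^ n` which is small-time locally controllable at the origin,
although for every `N` some family of polynomial vector fields which agrees with it to order `N`
at the origin is not; moreover in a fixed time it misses points arbitrarily near to the origin
and different from it. -/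
theorem result (n k : ℕ) (hn : 5 ≤ n) (hk : 2 * n - 2 ≤ k) : ∃ f : Fin k → E n → E n,
    (∀ i, IsPolynomialField (f i) ∧ AnalyticOnNhd ℝ (f i) univ) ∧ STLC f ∧
    ∀ N : ℕ, ∃ g : Fin k → E n → E n,
      (∀ i, IsPolynomialField (g i) ∧ AnalyticOnNhd ℝ (g i) univ) ∧
      AgreeToOrder N f g ∧ ¬ STLC g ∧
      ∃ t > 0, ∀ r > 0, ∃ w : E n, w ≠ 0 ∧ ‖w‖ < r ∧ w ∉ Attainable g t := by
  obtain ⟨f, hf, hs, hN⟩ := good_pad (by omega) hk (good_all n hn)
  refine ⟨f, hf, hs, fun N => ?_⟩
  obtain ⟨g, hg, ha, hb⟩ := hN N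
  exact ⟨g, hg, ha, hb.not_stlc, hb⟩

end Pool.Agent.Results.MP_b41015_an.AllDimensions
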