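import Mathlib
import Pool.Agent.Y860.FJ.Final

open Set

namespace Pool.Agent.Results.MP_b41015_an.EveryDimensionFromFour

open Pool.Agent.Helper562.STLC

/-- In every dimension `n ≥ 4`, and for every number `k ≥ n - 1` of fields, there is a family of
`k` polynomial vector fields on `ℝ ^ n` which is small-time locally controllable at the origin,
although for every `N` some family of polynomial vector fields which agrees with it to order `N`
at the origin is not. -/
theorem result (n k : ℕ) (hn : 4 ≤ n) (hk : n ≤ k + 1) : ∃ f : Fin k → E n → E n,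
    (∀ i, IsPolynomialField (f i) ∧ AnalyticOnNhd ℝ (f i) univ) ∧ STLC f ∧
    ∀ N : ℕ, ∃ g : Fin k → E n → E n,
      (∀ i, IsPolynomialField (g i) ∧ AnalyticOnNhd ℝ (g i) univ) ∧
      AgreeToOrder N f g ∧ ¬ STLC g :=
  Pool.Agent.Y860.FJ.main n k hn hk

end Pool.Agent.Results.MP_b41015_an.EveryDimensionFromFour
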